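import Pool.Agent.Run7.h325.RSI.Stm

/-!
# Pieces OMG, FFP, BBP, SW of the project RSI (MP_70f35d_an, MP_6fecbe_an)
-/

set_option autoImplicit false

namespace Pool.Agent.Run7.h984.RSI

open MeasureTheory Filter Topology Metric
open Pool.Agent.Run7.h325.RSI

/-! ### Constants -/

theorem hh_pos (m : ℕ) : 0 < hh m := by
  unfold hh; positivity

theorem rho_pos (m : ℕ) : 0 < rho m := by
  unfold rho
  have := hh_pos m
  positivity

theorem rho'_pos (m : ℕ) : 0 < rho' m := by
  unfold rho'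
  have := rho_pos m
  positivity

theorem one_le_four (m : ℕ) : (1 : ℝ) ≤ 4 ^ (m ^ 4) := one_le_pow₀ (by norm_num)

theorem rho_le (m : ℕ) : rho m ≤ 1 / 32768 := by
  unfold rho hh
  have h := one_le_four m
  rw [div_div, div_le_div_iff_of_pos_left one_pos (by positivity) (by norm_num)]
  linarith

theorem rho_le' (m : ℕ) : rho m ≤ 1 / 8 := (rho_le m).trans (by norm_num)

theorem Gr_pos (m : ℕ) (t : ℝ) : 0 < Gr m t := by
  unfold Gr
  split_ifs with h
  · exact Real.rpow_pos_of_pos (div_pos h.1 (h.1.trans h.2)) _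
  · exact one_pos

theorem wt_pos (m : ℕ) (x : E2) : 0 < wt m x := div_pos (Gr_pos _ _) (Gr_pos _ _)

theorem measurable_Gr (m : ℕ) : Measurable (Gr m) := by
  unfold Gr
  refine Measurable.ite ?_ ?_ measurable_const
  · exact measurableSet_Ioo
  · fun_prop

theorem measurable_wt (m : ℕ) : Measurable (wt m) := by
  unfold wt U V
  exact ((measurable_Gr m).comp (continuous_infDist_pt _).measurable).div
    ((measurable_Gr m).comp (continuous_infDist_pt _).measurable)

/-! ### FFP -/

theorem t_FFP (_h : S_MASS) : S_FFP := by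
  intro m φ hm hφ
  have hlast : ∀ x, ff m φ x ≠ 0 → ∃ p ∈ BI m, rho' m ≤ ‖x - ze p‖ ∧ ‖x - ze p‖ ≤ rho m := by
    intro x hx
    obtain ⟨p, hp, hpx⟩ := Finset.exists_ne_zero_of_sum_ne_zero hx
    exact ⟨p, hp, hφ.supp _ hpx⟩
  refine ⟨?_, ?_, ?_, hlast⟩
  · unfold ff
    apply ContDiff.sum
    intro p _
    exact hφ.smooth.comp (contDiff_id.sub contDiff_const)
  · refine HasCompactSupport.intro (K := ⋃ p ∈ BI m, closedBall (ze p) (rho m)) ?_ ?_
    · exact (BI m).isCompact_biUnion fun p _ => isCompact_closedBall _ _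
    · intro x hx
      by_contra h
      obtain ⟨p, hp, -, h2⟩ := hlast x h
      apply hx
      rw [Set.mem_iUnion₂]
      exact ⟨p, hp, by rw [mem_closedBall, dist_eq_norm]; exact h2⟩
  · intro x
    exact Finset.sum_nonneg fun p _ => hφ.nonneg _

/-! ### OMG -/

theorem measurable_dir : Measurable (fun y : E2 => ‖y‖⁻¹ • y) := by fun_prop

theorem isOpen_Ann : IsOpen Ann := by
  unfold Ann
  exact (isOpen_lt continuous_const continuous_norm).inter
    (isOpen_lt continuous_norm continuous_const)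

theorem volume_Ann_ne_top : volume Ann ≠ ⊤ := by
  refine ne_top_of_le_ne_top (measure_ball_lt_top (x := (0 : E2)) (r := 2)).ne
    (measure_mono ?_)
  intro y hy
  rw [mem_ball_zero_iff]
  exact hy.2

theorem volume_Ann_ne_zero : volume Ann ≠ 0 := by
  apply (isOpen_Ann.measure_pos volume _).ne'
  refine ⟨EuclideanSpace.single 0 (3 / 2 : ℝ), ?_, ?_⟩
  · rw [PiLp.norm_single]
    norm_num
  · rw [PiLp.norm_single]
    norm_num

theorem integral_mean (F : E2 → ℝ) (hF : ∃ M, ∀ u, |F u| ≤ M) (hm : Measurable F) :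
    (∫ y in Ann, (F (‖y‖⁻¹ • y) - mean F)) = 0 := by
  obtain ⟨M, hM⟩ := hF
  have hi : IntegrableOn (fun y : E2 => F (‖y‖⁻¹ • y)) Ann := by
    apply Measure.integrableOn_of_bounded (M := M) volume_Ann_ne_top
    · exact (hm.comp measurable_dir).aestronglyMeasurable
    · exact Filter.Eventually.of_forall fun y => by
        rw [Real.norm_eq_abs]
        exact hM _
  have hc : IntegrableOn (fun _ : E2 => mean F) Ann := by
    rw [integrableOn_const_iff]
    right
    exact lt_top_iff_ne_top.2 volume_Ann_ne_top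
  have hfin : (volume Ann).toReal ≠ 0 :=
    (ENNReal.toReal_pos volume_Ann_ne_zero volume_Ann_ne_top).ne'
  rw [integral_sub hi hc, setIntegral_const, smul_eq_mul, measureReal_def]
  unfold mean
  field_simp
  ring

theorem t_OMG (hPSI : S_PSI) (hCM : S_CM) : S_OMG := by
  intro m hm
  obtain ⟨hc, h0, h1, -⟩ := hPSI m hm
  obtain ⟨c0, c1⟩ := hCM m hm
  have hlast : (∀ F : E2 → ℝ, (∃ M, ∀ u, |F u| ≤ M) → Measurable F →
      (∫ y in {y : E2 | 1 < ‖y‖ ∧ ‖y‖ < 2}, (F (‖y‖⁻¹ • y) - mean F)) = 0) :=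
    fun F hF hFm => integral_mean F hF hFm
  refine ⟨?_, ?_, ?_, ?_, hlast⟩
  · exact (hc.measurable.comp measurable_dir).sub measurable_const
  · intro x
    unfold Om
    rw [abs_le]
    have a0 := h0 (‖x‖⁻¹ • x)
    have a1 := h1 (‖x‖⁻¹ • x)
    constructor <;> linarith
  · intro x t ht
    unfold Om
    congr 2
    rw [norm_smul, Real.norm_of_nonneg ht.le, smul_smul]
    congr 1
    rw [mul_inv, mul_right_comm, inv_mul_cancel₀ ht.ne', one_mul]
  · have hbd : ∃ M, ∀ u, |Psi m u| ≤ M :=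
      ⟨1, fun u => abs_le.2 ⟨by linarith [h0 u], h1 u⟩⟩
    have hA := hlast (Psi m) hbd hc.measurable
    rw [← hA]
    have hset : ({y : E2 | 1 ≤ ‖y‖ ∧ ‖y‖ ≤ 2} : Set E2) =ᵐ[volume]
        {y : E2 | 1 < ‖y‖ ∧ ‖y‖ < 2} := by
      have s1 : volume (sphere (0 : E2) 1) = 0 := Measure.addHaar_sphere volume 0 1
      have s2 : volume (sphere (0 : E2) 2) = 0 := Measure.addHaar_sphere volume 0 2
      have e1 : ∀ᵐ y : E2 ∂volume, ‖y‖ ≠ 1 := by
        rw [ae_iff]
        refine measure_mono_null ?_ s1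
        intro y hy
        rw [mem_sphere_zero_iff_norm]
        simpa using hy
      have e2 : ∀ᵐ y : E2 ∂volume, ‖y‖ ≠ 2 := by
        rw [ae_iff]
        refine measure_mono_null ?_ s2
        intro y hy
        rw [mem_sphere_zero_iff_norm]
        simpa using hy
      filter_upwards [e1, e2] with y h1 h2
      apply propext
      show (1 ≤ ‖y‖ ∧ ‖y‖ ≤ 2) ↔ (1 < ‖y‖ ∧ ‖y‖ < 2)
      constructor
      · rintro ⟨a, b⟩
        exact ⟨lt_of_le_of_ne a (Ne.symm h1), lt_of_le_of_ne b h2⟩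
      · rintro ⟨a, b⟩
        exact ⟨a.le, b.le⟩
    rw [setIntegral_congr_set hset]
    rfl

/-! ### BBP -/

theorem t_BBP (hLAT : S_LAT) (hFFP : S_FFP) : S_BBP := by
  intro m φ hm hφ
  obtain ⟨hne, -, hf, hw⟩ := hLAT
  obtain ⟨hs, hcs, hff0, hsup⟩ := hFFP m φ hm hφ
  have hρ := rho_pos m
  have hρ' := rho'_pos m
  have hρ8 := rho_le' m
  have hdist : ∀ y, ff m φ y ≠ 0 → rho' m ≤ infDist y Zf ∧ infDist y Zf ≤ rho m := by
    intro y hy
    obtain ⟨p, -, h1, h2⟩ := hsup y hy
    have := (hf (ze p) ⟨p, rfl⟩ y (by linarith)).1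
    rw [this]
    exact ⟨h1, h2⟩
  have hmeas : Measurable bb := by
    unfold bb
    exact measurable_const.max (Real.measurable_log.comp
      (measurable_const.div (measurable_const.mul (continuous_infDist_pt _).measurable)))
  have hbb0 : ∀ x, 0 ≤ bb x := fun x => le_max_left _ _
  have hup : ∀ y, ff m φ y ≠ 0 → bb y ≤ max 0 (Real.log (1 / (4 * rho' m))) := by
    intro y hy
    obtain ⟨h1, h2⟩ := hdist y hy
    unfold bb
    apply max_le_max (le_refl _)
    apply Real.log_le_log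
    · have := hρ'.trans_le h1
      positivity
    · apply one_div_le_one_div_of_le (by positivity)
      linarith
  obtain ⟨K2, hK2⟩ := hcs.exists_bound_of_continuous hs.continuous
  have hK2' : 0 ≤ K2 := (norm_nonneg _).trans (hK2 0)
  have hfi : Integrable (ff m φ) := hs.continuous.integrable_of_hasCompactSupport hcs
  refine ⟨?_, ?_, hmeas, hbb0, ⟨max 0 (Real.log (1 / (4 * rho' m))) * K2, ?_⟩, ?_⟩
  · intro y hy
    obtain ⟨h1, h2⟩ := hdist y hy
    have hd : 0 < infDist y Zf := hρ'.trans_le h1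
    have h3 : (4 : ℝ) ^ (m ^ 4) ≤ 1 / (4 * infDist y Zf) := by
      rw [le_div_iff₀ (by positivity)]
      have h4 : rho m * 4 ^ (m ^ 4) = 1 / 32768 := by
        unfold rho hh
        have := one_le_four m
        field_simp
        norm_num
      have h5 : infDist y Zf * 4 ^ (m ^ 4) ≤ 1 / 32768 := by
        rw [← h4]
        exact mul_le_mul_of_nonneg_right h2 (by positivity)
      nlinarith
    have h6 : (m : ℝ) ^ 4 ≤ Real.log (4 ^ (m ^ 4)) := by
      rw [Real.log_pow]
      push_cast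
      have : 1 ≤ Real.log 4 := by
        rw [Real.le_log_iff_exp_le (by norm_num)]
        have := Real.exp_one_lt_d9
        linarith
      have h7 : (0 : ℝ) ≤ (m : ℝ) ^ 4 := by positivity
      nlinarith
    unfold bb
    refine le_trans (h6.trans ?_) (le_max_right _ _)
    exact Real.log_le_log (by positivity) h3
  · intro p x hx
    have h1 := (hw (zz p) ⟨p, rfl⟩ x (by linarith)).2
    unfold bb
    apply max_eq_left
    apply Real.log_nonpos
    · positivity
    · rw [div_le_one (by linarith)]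
      linarith
  · intro y
    by_cases hy : ff m φ y = 0
    · rw [hy, mul_zero, abs_zero]
      positivity
    · rw [abs_mul, abs_of_nonneg (hbb0 y)]
      have := hK2 y
      rw [Real.norm_eq_abs] at this
      exact mul_le_mul (hup y hy) this (abs_nonneg _) (le_max_left _ _)
  · refine Integrable.mono' (hfi.norm.const_mul (max 0 (Real.log (1 / (4 * rho' m))))) ?_ ?_
    · exact (hmeas.mul hs.continuous.measurable).aestronglyMeasurable
    · refine Filter.Eventually.of_forall fun y => ?_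
      by_cases hy : ff m φ y = 0
      · rw [hy]
        simp
      · rw [norm_mul, Real.norm_of_nonneg (hbb0 y)]
        exact mul_le_mul_of_nonneg_right (hup y hy) (norm_nonneg _)

/-! ### SW -/

theorem zz_sep {p p' : ℤ × ℤ} (h : ‖zz p - zz p'‖ < 1) : p = p' := by
  have h0 := (PiLp.norm_apply_le (zz p - zz p') 0).trans_lt h
  have h1 := (PiLp.norm_apply_le (zz p - zz p') 1).trans_lt h
  have e0 : (zz p - zz p') 0 = ((p.1 - p'.1 : ℤ) : ℝ) := by
    simp [zz]
  have e1 : (zz p - zz p') 1 = ((p.2 - p'.2 : ℤ) : ℝ) := by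
    simp [zz]
  rw [e0, Real.norm_eq_abs, ← Int.cast_abs] at h0
  rw [e1, Real.norm_eq_abs, ← Int.cast_abs] at h1
  have g0 : |p.1 - p'.1| < 1 := by exact_mod_cast h0
  have g1 : |p.2 - p'.2| < 1 := by exact_mod_cast h1
  rw [Int.abs_lt_one_iff] at g0 g1
  exact Prod.ext (by omega) (by omega)

theorem disj_balls (m : ℕ) {p p' : ℤ × ℤ} (h : p ≠ p') :
    Disjoint (ball (zz p) (rho m)) (ball (zz p') (rho m)) := by
  rw [Set.disjoint_left]
  intro x hx hx'
  apply h
  apply zz_sep
  rw [mem_ball, dist_eq_norm] at hx hx'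
  have : zz p - zz p' = (x - zz p') - (x - zz p) := by abel
  rw [this]
  have h2 := norm_sub_le (x - zz p') (x - zz p)
  have h3 := rho_le' m
  linarith

theorem card_BJ (m : ℕ) : (((BJ m).card : ℕ) : ℝ) = 4 * (4 : ℝ) ^ (m ^ 4) := by
  unfold BJ
  rw [Finset.card_product, Int.card_Ico]
  have h1 : ((3 : ℤ) * 2 ^ (m ^ 4) - 2 ^ (m ^ 4)).toNat = 2 * 2 ^ (m ^ 4) := by
    have : (3 : ℤ) * 2 ^ (m ^ 4) - 2 ^ (m ^ 4) = ((2 * 2 ^ (m ^ 4) : ℕ) : ℤ) := by
      push_cast
      ring
    rw [this, Int.toNat_natCast]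
  rw [h1]
  push_cast
  have : (4 : ℝ) ^ (m ^ 4) = 2 ^ (m ^ 4) * 2 ^ (m ^ 4) := by
    rw [← mul_pow]
    norm_num
  rw [this]
  ring

theorem t_SW (hWM : S_WM) (_hLAT : S_LAT) : S_SW := by
  intro m hm
  have hi : ∀ p ∈ BJ m, IntegrableOn (wt m) (ball (zz p) (rho m)) := fun p _ => (hWM m p hm).1
  have hint : IntegrableOn (wt m) (SS m) := (integrableOn_finset_iUnion).2 hi
  refine ⟨hint, ?_⟩
  unfold SS
  rw [integral_biUnion_finset (BJ m) (fun p _ => measurableSet_ball)
    (fun p _ p' _ hpp => disj_balls m hpp) hi]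
  rw [← card_BJ, ← nsmul_eq_mul, ← Finset.sum_const]
  exact Finset.sum_le_sum fun p _ => (hWM m p hm).2

end Pool.Agent.Run7.h984.RSI
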