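import Pool.Agent.Run7.h984.RSI.One

/-!
# Pieces TN, CS of the project RSI (MP_70f35d_an, MP_6fecbe_an)
-/

set_option autoImplicit false

namespace Pool.Agent.Run7.h984.RSI

open MeasureTheory Filter Topology Metric
open Pool.Agent.Run7.h325.RSI

/-- Points near a w-atom are far from the support of `f`. -/
theorem ff_far (hLAT : S_LAT) (hFFP : S_FFP) {m : ℕ} {φ : E2 → ℝ} (hm : 1 ≤ m)
    (hφ : IsBump m φ) {J : ℤ × ℤ} {x : E2} (hx : ‖x - zz J‖ ≤ rho m) :
    ∀ y, ‖y - x‖ < 1 / 8 → ff m φ y = 0 := by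
  intro y hy
  by_contra h
  obtain ⟨-, -, -, hsup⟩ := hFFP m φ hm hφ
  obtain ⟨p, -, -, h2⟩ := hsup y h
  obtain ⟨-, -, -, hw⟩ := hLAT
  have h3 := rho_le' m
  have h4 := (hw (zz J) ⟨J, rfl⟩ x (by linarith)).2
  have h5 : infDist x Zf ≤ dist x (ze p) := infDist_le_dist_of_mem ⟨p, rfl⟩
  have h6 : dist x (ze p) ≤ dist x y + dist y (ze p) := dist_triangle _ _ _
  rw [dist_comm x y, dist_eq_norm y x, dist_eq_norm y (ze p)] at h6
  linarith

theorem t_TN (hTLOW : S_TLOW) (hFAR : S_FAR) (hFFP : S_FFP) (hWM : S_WM) (hLAT : S_LAT)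
    (_hOMG : S_OMG) : S_TN := by
  intro m φ T hm hφ hT
  obtain ⟨hs, hcs, -, -⟩ := hFFP m φ hm hφ
  obtain ⟨hSWi, hSW⟩ := t_SW hWM hLAT m hm
  have hfi : Integrable (ff m φ) := hs.continuous.integrable_of_hasCompactSupport hcs
  set c : ℝ := r0 m ^ 2 * (m : ℝ) ^ 8 / 2 with hc
  have hc0 : 0 ≤ c := by rw [hc]; positivity
  have hlow : ∀ x ∈ SS m, c ≤ T x := by
    intro x hx
    unfold SS at hx
    rw [Set.mem_iUnion₂] at hx
    obtain ⟨J, hJ, hxJ⟩ := hx
    rw [mem_ball, dist_eq_norm] at hxJ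
    have e1 := hFAR (ff m φ) (Om m) x (1 / 8) (T x) (by norm_num)
      (ff_far hLAT hFFP hm hφ hxJ.le) (hT x)
    have e2 := hTLOW m φ (fun _ => 1) 1 J x hm hφ hJ hxJ.le zero_le_one (fun _ _ => le_refl _)
      (by simpa using hfi)
    rw [one_mul] at e2
    rw [e1]
    exact e2
  have hSm : MeasurableSet (SS m) := by
    unfold SS
    exact (BJ m).measurableSet_biUnion fun p _ => measurableSet_ball
  have hstep : ENNReal.ofReal (c ^ 2 * ∫ x in SS m, wt m x) ≤
      ∫⁻ x, ENNReal.ofReal ((T x) ^ 2 * wt m x) := by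
    rw [← integral_const_mul, ofReal_integral_eq_lintegral_ofReal (hSWi.const_mul _)
      (Filter.Eventually.of_forall fun x => mul_nonneg (sq_nonneg _) (wt_pos m x).le)]
    refine le_trans ?_ (setLIntegral_le_lintegral (SS m) _)
    apply setLIntegral_mono' hSm
    intro x hx
    apply ENNReal.ofReal_le_ofReal
    apply mul_le_mul_of_nonneg_right _ (wt_pos m x).le
    exact pow_le_pow_left₀ hc0 (hlow x hx) 2
  refine le_trans ?_ hstep
  apply ENNReal.ofReal_le_ofReal
  have h1 := mul_le_mul_of_nonneg_left hSW (sq_nonneg c)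
  linarith

theorem t_CS (hBBP : S_BBP) (hSW : S_SW) (_hDIR : S_DIR) (_hFFP : S_FFP) : S_CS := by
  intro m φ F B hm hφ hB hint
  obtain ⟨-, hb0, -, -, -, -⟩ := hBBP m φ hm hφ
  obtain ⟨hSWi, -⟩ := hSW m hm
  have hSm : MeasurableSet (SS m) := by
    unfold SS
    exact (BJ m).measurableSet_biUnion fun p _ => measurableSet_ball
  set g : E2 → ℝ := fun x => ∫ y, (bb x - bb y) *
    ((F (‖x - y‖⁻¹ • (x - y)) - mean F) / ‖x - y‖ ^ 2) * ff m φ y with hg
  set h : E2 → ℝ := fun x => ∫ y, bb y * ff m φ y *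
    (F (‖x - y‖⁻¹ • (x - y)) - mean F) / ‖x - y‖ ^ 2 with hh
  have hgh : ∀ x ∈ SS m, g x = - h x := by
    intro x hx
    unfold SS at hx
    rw [Set.mem_iUnion₂] at hx
    obtain ⟨J, hJ, hxJ⟩ := hx
    rw [mem_ball, dist_eq_norm] at hxJ
    have hbx : bb x = 0 := hb0 J x hxJ.le
    rw [hg, hh]
    simp only
    rw [hbx, ← integral_neg]
    congr 1
    funext y
    ring
  set W : ℝ := ∫ x in SS m, wt m x with hW
  have hW0 : 0 ≤ W := setIntegral_nonneg hSm fun x _ => (wt_pos m x).le
  have hLam : Lam m φ F = ∫ x in SS m, h x * wt m x := rfl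
  have hkey : ∀ t : ℝ, 0 < t → |Lam m φ F| ≤ t / 2 * B + W / (2 * t) := by
    intro t ht
    have h1 : ENNReal.ofReal |Lam m φ F| ≤ ∫⁻ x in SS m, ENNReal.ofReal (|h x * wt m x|) := by
      rw [hLam]
      have := enorm_integral_le_lintegral_enorm (μ := volume.restrict (SS m))
        (fun x => h x * wt m x)
      simpa [Real.enorm_eq_ofReal_abs] using this
    have h2 : ∫⁻ x in SS m, ENNReal.ofReal (|h x * wt m x|) ≤
        ∫⁻ x in SS m, (ENNReal.ofReal (t / 2) * ENNReal.ofReal ((g x) ^ 2 * wt m x) +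
          ENNReal.ofReal (wt m x / (2 * t))) := by
      apply setLIntegral_mono' hSm
      intro x hx
      rw [← ENNReal.ofReal_mul (by positivity), ← ENNReal.ofReal_add]
      · apply ENNReal.ofReal_le_ofReal
        rw [hgh x hx, abs_mul, abs_of_pos (wt_pos m x), neg_sq]
        have hw := wt_pos m x
        have h3 : |h x| ≤ t / 2 * (h x) ^ 2 + 1 / (2 * t) := by
          have h4 : 0 ≤ (t * |h x| - 1) ^ 2 := sq_nonneg _
          have h5 : t / 2 * (h x) ^ 2 + 1 / (2 * t) - |h x| = (t * |h x| - 1) ^ 2 / (2 * t) := by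
            rw [← sq_abs (h x)]
            field_simp
            ring
          have h6 : 0 ≤ (t * |h x| - 1) ^ 2 / (2 * t) := by positivity
          linarith
        have h7 := mul_le_mul_of_nonneg_right h3 hw.le
        calc |h x| * wt m x ≤ (t / 2 * (h x) ^ 2 + 1 / (2 * t)) * wt m x := h7
          _ = t / 2 * ((h x) ^ 2 * wt m x) + wt m x / (2 * t) := by ring
      · have hw := wt_pos m x
        positivity
      · have hw := wt_pos m x
        positivity
    have h3 : ∫⁻ x in SS m, (ENNReal.ofReal (t / 2) * ENNReal.ofReal ((g x) ^ 2 * wt m x) +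
          ENNReal.ofReal (wt m x / (2 * t))) ≤
        ENNReal.ofReal (t / 2) * ENNReal.ofReal B + ENNReal.ofReal (W / (2 * t)) := by
      rw [lintegral_add_right _ ((measurable_wt m).div_const _).ennreal_ofReal]
      refine add_le_add ?_ ?_
      · rw [lintegral_const_mul' _ _ ENNReal.ofReal_ne_top]
        exact mul_le_mul_right ((setLIntegral_le_lintegral (SS m) _).trans hint) _
      · rw [hW, ← integral_div, ofReal_integral_eq_lintegral_ofReal (hSWi.div_const _)
          (Filter.Eventually.of_forall fun x => div_nonneg (wt_pos m x).le (by positivity))]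
    have h4 := h1.trans (h2.trans h3)
    rw [← ENNReal.ofReal_mul (by positivity), ← ENNReal.ofReal_add (by positivity)
      (by positivity)] at h4
    exact (ENNReal.ofReal_le_ofReal_iff (by positivity)).1 h4
  have hquad : ∀ t : ℝ, 0 ≤ B * (t * t) + (-(2 * |Lam m φ F|)) * t + W := by
    intro t
    rcases lt_or_ge 0 t with ht | ht
    · have := hkey t ht
      have h1 : |Lam m φ F| * (2 * t) ≤ (t / 2 * B + W / (2 * t)) * (2 * t) :=
        mul_le_mul_of_nonneg_right this (by positivity)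
      have h2 : (t / 2 * B + W / (2 * t)) * (2 * t) = B * (t * t) + W := by
        field_simp
      linarith
    · have h1 : 0 ≤ B * (t * t) := mul_nonneg hB (mul_self_nonneg t)
      have h2 : 0 ≤ (-(2 * |Lam m φ F|)) * t := by
        have := abs_nonneg (Lam m φ F)
        nlinarith
      linarith
  have hdisc := discrim_le_zero hquad
  unfold discrim at hdisc
  rw [← Real.sqrt_mul hB]
  apply Real.le_sqrt_of_sq_le
  nlinarith

end Pool.Agent.Run7.h984.RSI
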